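import Pool.Agent.helper83.P2.SpecV

set_option autoImplicit false

/-!
Project P2 (MP_063734_an), row VFK: the lemma of Fekete and a continuity point.
-/

open scoped ContDiff Topology
open MeasureTheory Filter Set Metric MvPolynomial Pool.Agent.helper37.QA Pool.Agent.P2

namespace Pool.Agent.P2V

/-- the essential upper limit of `φ m` on the classes -/
noncomputable def VFK_A {X : Type} (Cl : ℕ → ℝ → ℕ → Set X) (φ : ℕ → X → ℝ) (m : ℕ) (B : ℝ) : ℝ :=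
  sInf {t : ℝ | ∃ k : ℕ, ∀ x ∈ Cl k B k, φ m x ≤ t}

/-- the growth rate -/
noncomputable def VFK_a {X : Type} (Cl : ℕ → ℝ → ℕ → Set X) (φ : ℕ → X → ℝ) (C : ℝ) (B : ℝ) : ℝ :=
  sInf {r : ℝ | ∃ m : ℕ, 1 ≤ m ∧ r = (VFK_A Cl φ m B + C) / m}

theorem VFK : VFK_stmt := by
  intro X Cl S φ C K0 hC hmono hne hS hbd hsub
  have hneB : ∀ B, K0 ≤ B → ∀ J M, (Cl J B M).Nonempty := fun B hB J M =>
    (hne J M).mono (hmono J J B K0 M M le_rfl hB le_rfl)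
  have hdiag : ∀ (B : ℝ) (k k' : ℕ), k ≤ k' → Cl k' B k' ⊆ Cl k B k := fun B k k' h => hmono k k' B B k k' h le_rfl h
  have hTup : ∀ (m : ℕ) (B : ℝ), ∀ x ∈ Cl m B m, φ m x ≤ C * (m + 1) := fun m B x hx => (abs_le.1 (hbd _ _ _ _ hx)).2
  have hTlow : ∀ (m : ℕ) (B : ℝ), K0 ≤ B → ∀ t ∈ {t : ℝ | ∃ k : ℕ, ∀ x ∈ Cl k B k, φ m x ≤ t}, -(C * (m + 1)) ≤ t := by
    rintro m B hB t ⟨k, hk⟩
    obtain ⟨x, hx⟩ := hneB B hB (max k m) (max k m)
    have h1 := hk x (hdiag B k _ (le_max_left _ _) hx)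
    have h2 : x ∈ Cl (max k m) B m := hmono _ _ _ _ _ _ le_rfl le_rfl (le_max_right _ _) hx
    have h3 := (abs_le.1 (hbd _ _ _ _ h2)).1
    linarith
  have hBdd : ∀ (m : ℕ) (B : ℝ), K0 ≤ B → BddBelow {t : ℝ | ∃ k : ℕ, ∀ x ∈ Cl k B k, φ m x ≤ t} :=
    fun m B hB => ⟨_, fun t ht => hTlow m B hB t ht⟩
  have hN : ∀ (m : ℕ) (B : ℝ), {t : ℝ | ∃ k : ℕ, ∀ x ∈ Cl k B k, φ m x ≤ t}.Nonempty := fun m B => ⟨_, m, hTup m B⟩
  have P1 : ∀ (m : ℕ) (B t : ℝ), VFK_A Cl φ m B < t → ∃ k : ℕ, ∀ x ∈ Cl k B k, φ m x ≤ t := by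
    intro m B t ht
    obtain ⟨t', ⟨k, hk⟩, ht'⟩ := exists_lt_of_csInf_lt (hN m B) ht
    exact ⟨k, fun x hx => (hk x hx).trans ht'.le⟩
  have P2 : ∀ (m : ℕ) (B t : ℝ), K0 ≤ B → (∃ k : ℕ, ∀ x ∈ Cl k B k, φ m x ≤ t) → VFK_A Cl φ m B ≤ t :=
    fun m B t hB h => csInf_le (hBdd m B hB) h
  have P3 : ∀ (m : ℕ) (B : ℝ), K0 ≤ B → -(C * (m + 1)) ≤ VFK_A Cl φ m B :=
    fun m B hB => le_csInf (hN m B) (hTlow m B hB)
  have P5 : ∀ (m : ℕ) (B B' : ℝ), K0 ≤ B → B ≤ B' → VFK_A Cl φ m B ≤ VFK_A Cl φ m B' := by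
    intro m B B' hB hBB
    refine csInf_le_csInf (hBdd m B hB) (hN m B') ?_
    rintro t ⟨k, hk⟩
    exact ⟨k, fun x hx => hk x (hmono _ _ _ _ _ _ le_rfl hBB le_rfl hx)⟩
  -- the growth rate
  have alow : ∀ B, K0 ≤ B → ∀ r ∈ {r : ℝ | ∃ m : ℕ, 1 ≤ m ∧ r = (VFK_A Cl φ m B + C) / m}, -C ≤ r := by
    rintro B hB r ⟨m, hm, rfl⟩
    have hm0 : (0 : ℝ) < m := by exact_mod_cast hm
    rw [le_div_iff₀ hm0]
    have := P3 m B hB
    linarith
  have abdd : ∀ B, K0 ≤ B → BddBelow {r : ℝ | ∃ m : ℕ, 1 ≤ m ∧ r = (VFK_A Cl φ m B + C) / m} :=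
    fun B hB => ⟨_, fun r hr => alow B hB r hr⟩
  have aN : ∀ B, {r : ℝ | ∃ m : ℕ, 1 ≤ m ∧ r = (VFK_A Cl φ m B + C) / m}.Nonempty := fun B => ⟨_, 1, le_rfl, rfl⟩
  have ale : ∀ (B : ℝ), K0 ≤ B → ∀ m : ℕ, 1 ≤ m → VFK_a Cl φ C B * m ≤ VFK_A Cl φ m B + C := by
    intro B hB m hm
    have hm0 : (0 : ℝ) < m := by exact_mod_cast hm
    rw [← le_div_iff₀ hm0]
    exact csInf_le (abdd B hB) ⟨m, hm, rfl⟩
  have amono : ∀ B B', K0 ≤ B → B ≤ B' → VFK_a Cl φ C B ≤ VFK_a Cl φ C B' := by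
    intro B B' hB hBB
    refine le_csInf (aN B') ?_
    rintro r ⟨m, hm, rfl⟩
    have hm0 : (0 : ℝ) < m := by exact_mod_cast hm
    rw [le_div_iff₀ hm0]
    have h1 := ale B hB m hm
    have h2 := P5 m B B' hB hBB
    linarith
  have hmon : Monotone (fun B : ℝ => VFK_a Cl φ C (max B K0)) := fun B B' h =>
    amono _ _ (le_max_right _ _) (max_le_max h le_rfl)
  have hdense := (hmon.countable_not_continuousAt).dense_compl ℝ
  obtain ⟨Kb, hKb, hcont⟩ := hdense.exists_mem_open isOpen_Ioo (⟨K0 + 1 / 2, by constructor <;> linarith⟩ :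
    (Ioo K0 (K0 + 1)).Nonempty)
  have hcont' : ContinuousAt (fun B : ℝ => VFK_a Cl φ C (max B K0)) Kb := by
    by_contra hcon
    first
      | exact hKb hcon
      | exact hcont hcon
  have hI : Kb ∈ Ioo K0 (K0 + 1) := by
    first
      | exact hKb
      | exact hcont
  obtain ⟨a, ha⟩ : ∃ a : ℝ, a = VFK_a Cl φ C Kb := ⟨_, rfl⟩
  have hmax : max Kb K0 = Kb := max_eq_left hI.1.le
  -- continuity, in the form of a modulus
  have hmod : ∀ ε : ℝ, 0 < ε → ∃ τ : ℝ, 0 < τ ∧ K0 ≤ Kb - τ ∧ VFK_a Cl φ C (Kb + τ) < a + ε ∧ a - ε < VFK_a Cl φ C (Kb - τ) := by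
    intro ε hε
    obtain ⟨δ, hδ, hδ'⟩ := Metric.continuousAt_iff.1 hcont' ε hε
    refine ⟨min (δ / 2) (Kb - K0), lt_min (by linarith) (by linarith [hI.1]), ?_, ?_, ?_⟩
    · linarith [min_le_right (δ / 2) (Kb - K0)]
    · have hτ0 : 0 < min (δ / 2) (Kb - K0) := lt_min (by linarith) (by linarith [hI.1])
      have h1 := hδ' (x := Kb + min (δ / 2) (Kb - K0)) (by
        rw [Real.dist_eq, add_sub_cancel_left, abs_of_pos hτ0]
        linarith [min_le_left (δ / 2) (Kb - K0)])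
      rw [hmax, max_eq_left (by linarith [hI.1]), ← ha, Real.dist_eq] at h1
      linarith [(abs_lt.1 h1).2]
    · have hτ0 : 0 < min (δ / 2) (Kb - K0) := lt_min (by linarith) (by linarith [hI.1])
      have h1 := hδ' (x := Kb - min (δ / 2) (Kb - K0)) (by
        rw [Real.dist_eq, sub_sub_cancel_left, abs_neg, abs_of_pos hτ0]
        linarith [min_le_left (δ / 2) (Kb - K0)])
      rw [hmax, max_eq_left (by linarith [min_le_right (δ / 2) (Kb - K0)]), ← ha, Real.dist_eq] at h1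
      linarith [(abs_lt.1 h1).1]
  refine ⟨Kb, a, hI.1, hI.2, ?_, ?_⟩
  · intro ε hε
    obtain ⟨τ, hτ, -, hτa, -⟩ := hmod (ε / 4) (by linarith)
    obtain ⟨r, ⟨m1, hm1, rfl⟩, hr⟩ := exists_lt_of_csInf_lt (aN (Kb + τ)) (b := a + ε / 2)
      (lt_of_lt_of_le hτa (by linarith))
    have hm0 : (0 : ℝ) < m1 := by exact_mod_cast hm1
    rw [div_lt_iff₀ hm0] at hr
    obtain ⟨k, hk⟩ := P1 m1 (Kb + τ) (m1 * (a + ε / 2) - C) (by linarith)
    have key : ∀ q ρ : ℕ, ρ < m1 → ∀ x ∈ Cl k (Kb + τ) (k + (q * m1 + ρ)),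
        φ (q * m1 + ρ) x ≤ q * (m1 * (a + ε / 2)) + C * (m1 + 1) := by
      intro q
      induction q with
      | zero =>
        intro ρ hρ x hx
        have h1 : x ∈ Cl k (Kb + τ) ρ := hmono _ _ _ _ _ _ le_rfl le_rfl (by omega) hx
        have h2 := (abs_le.1 (hbd _ _ _ _ h1)).2
        have h3 : (ρ : ℝ) ≤ m1 := by exact_mod_cast hρ.le
        have h4 : C * ((ρ : ℝ) + 1) ≤ C * (m1 + 1) := mul_le_mul_of_nonneg_left (by linarith) hC
        have e : 0 * m1 + ρ = ρ := by ring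
        rw [e]
        push_cast
        linarith
      | succ q ih =>
        intro ρ hρ x hx
        have e : (q + 1) * m1 + ρ = m1 + (q * m1 + ρ) := by ring
        rw [e] at hx ⊢
        have h1 : x ∈ Cl k (Kb + τ) (m1 + (q * m1 + ρ)) := hmono _ _ _ _ _ _ le_rfl le_rfl (by omega) hx
        have h2 : x ∈ Cl k (Kb + τ) k := hmono _ _ _ _ _ _ le_rfl le_rfl (by omega) hx
        have h3 : S m1 x ∈ Cl k (Kb + τ) (k + (q * m1 + ρ)) := by
          apply hS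
          have e2 : k + (q * m1 + ρ) + m1 = k + (m1 + (q * m1 + ρ)) := by ring
          rw [e2]
          exact hx
        have h4 := hsub _ _ _ _ _ h1
        have h5 := hk x h2
        have h6 := ih ρ hρ _ h3
        push_cast
        linarith
    obtain ⟨m0, hm0'⟩ := exists_nat_ge (2 * (m1 * |a| + C * (m1 + 1)) / ε)
    refine ⟨k, m0 + 1, τ, hτ, by omega, ?_⟩
    intro m hm
    refine ⟨k + m, ?_⟩
    intro x hx
    have hdm : m / m1 * m1 + m % m1 = m := by rw [mul_comm]; exact Nat.div_add_mod m m1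
    have hlt : m % m1 < m1 := Nat.mod_lt _ (by omega)
    have h1 := key (m / m1) (m % m1) hlt x (by rw [hdm]; exact hx)
    rw [hdm] at h1
    have hdm' : ((m / m1 : ℕ) : ℝ) * m1 + ((m % m1 : ℕ) : ℝ) = m := by exact_mod_cast hdm
    have hρ0 : (0 : ℝ) ≤ ((m % m1 : ℕ) : ℝ) := Nat.cast_nonneg _
    have hρ1 : ((m % m1 : ℕ) : ℝ) ≤ m1 := by exact_mod_cast hlt.le
    have hm2 : (m0 : ℝ) + 1 ≤ m := by exact_mod_cast hm
    rw [div_le_iff₀ hε] at hm0'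
    have h2 : 2 * (m1 * |a| + C * (m1 + 1)) ≤ m * ε := hm0'.trans (mul_le_mul_of_nonneg_right (by linarith) hε.le)
    have h3 : -(m1 * |a|) ≤ ((m % m1 : ℕ) : ℝ) * a := by
      have h4 : -|a| ≤ a := neg_abs_le a
      have h5 : ((m % m1 : ℕ) : ℝ) * (-|a|) ≤ ((m % m1 : ℕ) : ℝ) * a := mul_le_mul_of_nonneg_left h4 hρ0
      have h6 : ((m % m1 : ℕ) : ℝ) * |a| ≤ m1 * |a| := mul_le_mul_of_nonneg_right hρ1 (abs_nonneg a)
      linarith
    have h7 : ((m / m1 : ℕ) : ℝ) * (m1 * (a + ε / 2)) = (m - ((m % m1 : ℕ) : ℝ)) * (a + ε / 2) := by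
      rw [← hdm']
      ring
    rw [h7] at h1
    have h8 : 0 ≤ ((m % m1 : ℕ) : ℝ) * (ε / 2) := by positivity
    nlinarith
  · intro ε hε
    obtain ⟨τ, hτ, hK, -, hτa⟩ := hmod ε hε
    refine ⟨τ, hτ, ?_⟩
    intro J m M
    have hlt : m * (a - ε) - C - 1 < VFK_A Cl φ m (Kb - τ) := by
      rcases Nat.eq_zero_or_pos m with rfl | hm
      · have := P3 0 (Kb - τ) hK
        push_cast at this ⊢
        linarith
      · have h1 := ale (Kb - τ) hK m hm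
        have hm0 : (0 : ℝ) < m := by exact_mod_cast hm
        have h2 : m * (a - ε) ≤ m * VFK_a Cl φ C (Kb - τ) := mul_le_mul_of_nonneg_left hτa.le hm0.le
        linarith
    by_contra hcon
    push Not at hcon
    have h1 := P2 m (Kb - τ) (m * (a - ε) - C - 1) hK ⟨max J M, fun x hx =>
      (hcon x (hmono _ _ _ _ _ _ (le_max_left _ _) le_rfl (le_max_right _ _) hx)).le⟩
    linarith

end Pool.Agent.P2V
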