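import Pool.Agent.helper56.P2.SpecW
import Pool.Agent.helper2.P2.UNH
import Pool.Agent.helper53.P2.MAU

set_option autoImplicit false

/-!
Project P2 (MP_063734_an), row WCN: the uniform constants.
-/

open scoped ContDiff Topology ComplexConjugate ENNReal
open MeasureTheory Filter Set Metric MvPolynomial Pool.Agent.helper37.QA

namespace Pool.Agent.P2W

open Pool.Agent.P2

theorem WCN_pmap_smooth {m : ℕ} (G : Fin m → MvPolynomial (Fin m) ℂ) (i : Fin m) :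
    ContDiff ℝ ∞ (fun x => pmap G x i) := by
  have h1 : ∀ j : Fin m, ContDiff ℂ ∞ (fun x : Fin m → ℂ => x j) := fun j => contDiff_apply ℂ ℂ j
  have h2 : ∀ p : MvPolynomial (Fin m) ℂ, ContDiff ℂ ∞ (fun x : Fin m → ℂ => eval x p) := by
    intro p
    induction p using MvPolynomial.induction_on with
    | C a => simpa using contDiff_const
    | add p q hp hq => simpa using hp.add hq
    | mul_X p j hp => simpa using hp.mul (h1 j)
  exact (h2 (G i)).restrict_scalars ℝ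

theorem WCN_normSq_smooth : ContDiff ℝ ∞ (Complex.normSq : ℂ → ℝ) := by
  have e : (Complex.normSq : ℂ → ℝ) = fun z => z.re * z.re + z.im * z.im := by
    ext z
    exact Complex.normSq_apply z
  rw [e]
  have h1 : ContDiff ℝ ∞ (fun z : ℂ => z.re) := Complex.reCLM.contDiff
  have h2 : ContDiff ℝ ∞ (fun z : ℂ => z.im) := Complex.imCLM.contDiff
  exact (h1.mul h1).add (h2.mul h2)

theorem WCN_It_smul {d : ℕ} (f : Endo 2 d) (n : ℕ) (a : ℂ) (Z : E3) :
    It f n (a • Z) = a ^ (d ^ n) • It f n Z := pmap_smul (iter_hom f.hom n) a Z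

theorem WCN_pq_smul (a : ℂ) (Z : E3) : pq (a • Z) = ‖a‖ ^ 2 * pq Z := by
  unfold pq
  simp only [Pi.smul_apply, smul_eq_mul, Complex.normSq_eq_norm_sq, norm_mul, mul_pow]
  ring

theorem WCN_nonzero {Z : E3} (h : 0 < pq Z) : Z 0 ≠ 0 ∨ Z 1 ≠ 0 := by
  by_contra hcon
  push Not at hcon
  unfold pq at h
  rw [hcon.1, hcon.2] at h
  simp at h

/-- the potentials are plurisubharmonic -/
theorem WCN_psh {d : ℕ} (f : Endo 2 d) (U : Set (PP 2)) (hU : IsOpen U) (M : ℕ)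
    (hp : ∀ Z ∈ cone U, 0 < pq (It f M Z)) : ∀ Z ∈ cone U, ∀ X : E3, 0 ≤ lev (un f M) Z X := by
  intro Z hZ X
  have hcont : Continuous (fun t : ℂ => Z + t • X) := by fun_prop
  have hΩ : IsOpen {t : ℂ | Z + t • X ∈ cone U} := (cone_open hU).preimage hcont
  have h0 : (0 : ℂ) ∈ {t : ℂ | Z + t • X ∈ cone U} := by
    simpa using hZ
  have hd : ∀ i, Differentiable ℂ (fun t : ℂ => It f M (Z + t • X) i) := by
    intro i
    have h2 : ∀ p : MvPolynomial (Fin 3) ℂ, Differentiable ℂ (fun t : ℂ => eval (Z + t • X) p) := by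
      intro p
      induction p using MvPolynomial.induction_on with
      | C a => simp
      | add p q hp hq =>
        simp only [map_add]
        exact hp.add hq
      | mul_X p j hp =>
        have h3 : Differentiable ℂ (fun t : ℂ => Z j + t * X j) := by fun_prop
        simp only [map_mul, eval_X, Pi.add_apply, Pi.smul_apply, smul_eq_mul]
        exact hp.mul h3
    exact h2 (iter f.F M i)
  have hne : It f M (Z + (0 : ℂ) • X) 0 ≠ 0 ∨ It f M (Z + (0 : ℂ) • X) 1 ≠ 0 := by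
    apply WCN_nonzero
    rw [zero_smul, add_zero]
    exact hp Z hZ
  have e : lev (un f M) Z X = lap (fun t => (1 / 2) * Real.log (Complex.normSq (It f M (Z + t • X) 0) +
      Complex.normSq (It f M (Z + t • X) 1)) / (d : ℝ) ^ M) 0 := rfl
  rw [e, MAU_core (fun t => It f M (Z + t • X) 0) (fun t => It f M (Z + t • X) 1) 0 _ _ hΩ h0
    (hd 0).differentiableOn (hd 1).differentiableOn hne]
  have hs := Complex.normSq_nonneg (It f M (Z + (0 : ℂ) • X) 0 * deriv (fun t : ℂ => It f M (Z + t • X) 1) 0 -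
    It f M (Z + (0 : ℂ) • X) 1 * deriv (fun t : ℂ => It f M (Z + t • X) 0) 0)
  exact div_nonneg (div_nonneg (mul_nonneg (by norm_num) hs) (sq_nonneg _)) (by positivity)

theorem WCN_smooth {d : ℕ} (f : Endo 2 d) (U : Set (PP 2)) (M : ℕ)
    (hp : ∀ Z ∈ cone U, 0 < pq (It f M Z)) : ContDiffOn ℝ ∞ (un f M) (cone U) := by
  intro Z hZ
  have h1 : ContDiffAt ℝ ∞ (fun Z : E3 => pq (It f M Z)) Z := by
    have h2 : ∀ i, ContDiff ℝ ∞ (fun Z : E3 => It f M Z i) := fun i => WCN_pmap_smooth (iter f.F M) i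
    have h3 : ContDiff ℝ ∞ (fun Z : E3 => Complex.normSq (It f M Z 0) + Complex.normSq (It f M Z 1)) :=
      (WCN_normSq_smooth.comp (h2 0)).add (WCN_normSq_smooth.comp (h2 1))
    exact h3.contDiffAt
  have h4 := h1.log (hp Z hZ).ne'
  exact ((contDiffAt_const.mul h4).div_const _).contDiffWithinAt

theorem WCN_hom {d : ℕ} (f : Endo 2 d) (hd : 2 ≤ d) (M : ℕ) (Z : E3) (hp : 0 < pq (It f M Z)) (a : ℂ) (ha : a ≠ 0) :
    un f M (a • Z) = un f M Z + Real.log ‖a‖ := by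
  unfold un
  have hd0 : (0 : ℝ) < (d : ℝ) ^ M := by
    have : (0 : ℝ) < d := by exact_mod_cast (by omega : 0 < d)
    positivity
  have hna : ‖a‖ ≠ 0 := norm_ne_zero_iff.2 ha
  rw [WCN_It_smul, WCN_pq_smul, norm_pow, Real.log_mul (by positivity) hp.ne', Real.log_pow, Real.log_pow]
  push_cast
  field_simp
  ring

/-- simple facts on the points of the tube -/
theorem WCN_gp {ι : Fin 2} {c : ℂ} {κ : ℝ} {γ : ℂ → ℂ} {p : ℂ × ℂ} (hc : ‖c‖ ≤ 2) (h0 : 0 < κ) (h1 : κ ≤ 1 / 10)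
    (hp : ‖p.1‖ < 1) : 1 ≤ nq (gp ι c κ γ p) ∧ pq (gp ι c κ γ p) ≤ 10 ∧ ‖γ p.1 + p.2‖ ^ 2 ≤ nq (gp ι c κ γ p) ∧
      1 ≤ ‖gp ι c κ γ p‖ := by
  have hx : ‖c + κ * p.1‖ ≤ 3 := by
    have h2 : ‖(κ : ℂ) * p.1‖ ≤ 1 := by
      rw [norm_mul, Complex.norm_real, Real.norm_eq_abs, abs_of_pos h0]
      nlinarith [norm_nonneg p.1]
    exact (norm_add_le _ _).trans (by linarith)
  have hx2 : ‖c + κ * p.1‖ ^ 2 ≤ 9 := by nlinarith [norm_nonneg (c + κ * p.1)]
  have hx0 := sq_nonneg ‖c + κ * p.1‖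
  have hy0 := sq_nonneg ‖γ p.1 + p.2‖
  unfold gp cht
  split_ifs with h
  · refine ⟨?_, ?_, ?_, ?_⟩
    · simp only [nq, Fin.sum_univ_three, Complex.normSq_eq_norm_sq]
      simp
      linarith
    · simp only [pq, Complex.normSq_eq_norm_sq]
      simp
      linarith
    · simp only [nq, Fin.sum_univ_three, Complex.normSq_eq_norm_sq]
      simp
      linarith
    · have := norm_le_pi_norm (![1, c + κ * p.1, γ p.1 + p.2] : E3) 0
      simpa using this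
  · refine ⟨?_, ?_, ?_, ?_⟩
    · simp only [nq, Fin.sum_univ_three, Complex.normSq_eq_norm_sq]
      simp
      linarith
    · simp only [pq, Complex.normSq_eq_norm_sq]
      simp
      linarith
    · simp only [nq, Fin.sum_univ_three, Complex.normSq_eq_norm_sq]
      simp
      linarith
    · have := norm_le_pi_norm (![c + κ * p.1, 1, γ p.1 + p.2] : E3) 1
      simpa using this

theorem WCN_gp_sub {ι : Fin 2} {c : ℂ} {κ : ℝ} {γ : ℂ → ℂ} {p p' : ℂ × ℂ} {A : ℝ} (h0 : 0 < κ) (h1 : κ ≤ 1 / 10)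
    (hA : 0 ≤ A) (hγ : ‖γ p.1 - γ p'.1‖ ≤ A * ‖p.1 - p'.1‖) :
    ‖gp ι c κ γ p - gp ι c κ γ p'‖ ≤ (A + 1) * ‖p - p'‖ := by
  have e1 : ‖p.1 - p'.1‖ ≤ ‖p - p'‖ := norm_fst_le (p - p')
  have e2 : ‖p.2 - p'.2‖ ≤ ‖p - p'‖ := norm_snd_le (p - p')
  have hn := norm_nonneg (p - p')
  have hpos : 0 ≤ (A + 1) * ‖p - p'‖ := by positivity
  have k1 : ‖(c + κ * p.1) - (c + κ * p'.1)‖ ≤ (A + 1) * ‖p - p'‖ := by
    have e3 : (c + κ * p.1) - (c + κ * p'.1) = κ * (p.1 - p'.1) := by ring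
    rw [e3, norm_mul, Complex.norm_real, Real.norm_eq_abs, abs_of_pos h0]
    nlinarith [norm_nonneg (p.1 - p'.1)]
  have k2 : ‖(γ p.1 + p.2) - (γ p'.1 + p'.2)‖ ≤ (A + 1) * ‖p - p'‖ := by
    have e3 : (γ p.1 + p.2) - (γ p'.1 + p'.2) = (γ p.1 - γ p'.1) + (p.2 - p'.2) := by ring
    rw [e3]
    refine (norm_add_le _ _).trans ?_
    nlinarith [norm_nonneg (p.1 - p'.1)]
  rw [pi_norm_le_iff_of_nonneg hpos]
  unfold gp cht
  intro i
  split_ifs with h
  · fin_cases i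
    · simpa using hpos
    · simpa using k1
    · simpa using k2
  · fin_cases i
    · simpa using k1
    · simpa using hpos
    · simpa using k2

theorem WCN_lip {γ : ℂ → ℂ} {B : ℝ} (hB : 0 ≤ B) (hd : DifferentiableOn ℂ γ (ball 0 1)) (hb : ∀ ξ ∈ ball (0 : ℂ) 1, ‖γ ξ‖ ≤ B)
    {x y : ℂ} (hx : ‖x‖ < 3 / 4) (hy : ‖y‖ < 3 / 4) : ‖γ x - γ y‖ ≤ 5 * B * ‖x - y‖ := by
  have hder : ∀ z ∈ ball (0 : ℂ) (3 / 4), ‖deriv γ z‖ ≤ 5 * B := by
    intro z hz
    rw [mem_ball_zero_iff] at hz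
    have hsub : closedBall z (1 / 5) ⊆ ball (0 : ℂ) 1 := by
      intro w hw
      rw [mem_closedBall, dist_eq_norm] at hw
      rw [mem_ball_zero_iff]
      have e : w = (w - z) + z := by ring
      rw [e]
      exact lt_of_le_of_lt (norm_add_le _ _) (by linarith)
    have h1 : DiffContOnCl ℂ γ (ball z (1 / 5)) := by
      refine DifferentiableOn.diffContOnCl ?_
      rw [closure_ball z (by norm_num)]
      exact hd.mono hsub
    have h2 := Complex.norm_deriv_le_of_forall_mem_sphere_norm_le (c := z) (R := 1 / 5) (C := B) (f := γ) (by norm_num) h1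
      (fun w hw => hb w (hsub (sphere_subset_closedBall hw)))
    calc ‖deriv γ z‖ ≤ B / (1 / 5) := h2
      _ = 5 * B := by ring
  have hconv : Convex ℝ (ball (0 : ℂ) (3 / 4)) := convex_ball _ _
  have h3 := hconv.norm_image_sub_le_of_norm_deriv_le (f := γ) (C := 5 * B) (x := y) (y := x)
    (fun z hz => hd.differentiableAt (isOpen_ball.mem_nhds (ball_subset_ball (by norm_num) hz))) hder
    (by rwa [mem_ball_zero_iff]) (by rwa [mem_ball_zero_iff])
  exact h3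

theorem WCN (hUN1 : UN1_stmt) (hUNH : UNH_stmt) : WCN_stmt := by
  intro d f U hd hG τ κ hτ hκ0 hκ1
  obtain ⟨C, hC, u1, u2, u3, u4⟩ := hUN1 d f U hd hG
  obtain ⟨CH, α, hCH, hα0, hα1, uH⟩ := hUNH d f U hd hG
  have hd1 : (1 : ℝ) < d := by exact_mod_cast (by omega : 1 < d)
  have hcl : ∀ Z ∈ cone U, Z ∈ cone (closure U) := fun Z hZ => ⟨hZ.1, subset_closure hZ.2⟩
  obtain ⟨B, hBdef⟩ : ∃ B : ℝ, B = 10 * C + 1 := ⟨_, rfl⟩
  obtain ⟨A, hAdef⟩ : ∃ A : ℝ, A = 5 * B + 1 := ⟨_, rfl⟩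
  have hB : 1 ≤ B := by rw [hBdef]; linarith
  have hA : 1 ≤ A := by rw [hAdef]; linarith
  obtain ⟨C0, hC0def⟩ : ∃ C0 : ℝ, C0 = 1 + 10 * C + CH + CH * A + 24 * C * A := ⟨_, rfl⟩
  have hCA : 0 < C * A := by positivity
  have hHA : 0 < CH * A := by positivity
  have hC0C : C ≤ C0 := by rw [hC0def]; linarith
  have hC0B : B ≤ C0 := by rw [hC0def, hBdef]; linarith
  have hC0H : CH ≤ C0 := by rw [hC0def]; linarith
  have hC01 : 1 ≤ C0 := by rw [hC0def]; linarith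
  have hun : ∀ (ι : Fin 2) (c : ℂ) (γ : ℂ → ℂ), Tb U τ ι c κ γ → ∀ n : ℕ, ∀ p ∈ P2U.TB 1 τ,
      |un f n (gp ι c κ γ p)| ≤ 6 * C := by
    intro ι c γ hT n p hp
    have hcone := hT.tb p.1 (by simpa using hp.1) p.2 (by simpa using hp.2)
    have hcone' : gp ι c κ γ p ∈ cone U := hcone
    obtain ⟨g1, g2, g3, g4⟩ := WCN_gp (ι := ι) (γ := γ) hT.hc hκ0 hκ1 hp.1
    have h3 := (u3 0 _ (hcl _ hcone')).2
    rw [UNH_It_zero] at h3
    have h2 := u2 n _ (hcl _ hcone')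
    have hn : nq (gp ι c κ γ p) ≤ 10 * C := by nlinarith
    have hlog0 : 0 ≤ Real.log (nq (gp ι c κ γ p)) := Real.log_nonneg g1
    have hlog1 : Real.log (nq (gp ι c κ γ p)) ≤ 10 * C := by
      have := Real.log_le_sub_one_of_pos (by linarith : 0 < nq (gp ι c κ γ p))
      linarith
    rw [abs_le] at h2 ⊢
    constructor <;> linarith
  have hcone : ∀ (ι : Fin 2) (c : ℂ) (γ : ℂ → ℂ), Tb U τ ι c κ γ → ∀ p ∈ P2U.TB 1 τ, gp ι c κ γ p ∈ cone U := by
    intro ι c γ hT p hp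
    exact hT.tb p.1 (by simpa using hp.1) p.2 (by simpa using hp.2)
  have hbg : ∀ (ι : Fin 2) (c : ℂ) (γ : ℂ → ℂ), Tb U τ ι c κ γ → ∀ ξ ∈ ball (0 : ℂ) 1, ‖γ ξ‖ ≤ B := by
    intro ι c γ hT ξ hξ
    have hp : (ξ, (0 : ℂ)) ∈ P2U.TB 1 τ := ⟨by simpa using hξ, by simpa using hτ⟩
    have hc := hcone ι c γ hT _ hp
    obtain ⟨g1, g2, g3, g4⟩ := WCN_gp (ι := ι) (γ := γ) hT.hc hκ0 hκ1 hp.1
    have h3 := (u3 0 _ (hcl _ hc)).2
    rw [UNH_It_zero] at h3
    have hn : nq (gp ι c κ γ (ξ, 0)) ≤ 10 * C := by nlinarith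
    simp only [add_zero] at g3
    have h5 : ‖γ ξ‖ ^ 2 ≤ 10 * C := g3.trans hn
    rw [hBdef]
    nlinarith [norm_nonneg (γ ξ), sq_nonneg (‖γ ξ‖ - 1)]
  refine ⟨C0, α, ⟨hC01, hα0, hα1, ?_, ?_, ?_, ?_, ?_, ?_⟩⟩
  · intro M
    have hpos : ∀ Z ∈ cone U, 0 < pq (It f M Z) := fun Z hZ => (u3 M Z (hcl Z hZ)).1
    refine ⟨cone_open hG.1.1, fun Z hZ a ha => cone_smul hZ ha, ?_, WCN_smooth f U M hpos, WCN_psh f U hG.1.1 M hpos,
      fun Z hZ a ha => WCN_hom f hd M Z (hpos Z hZ) a ha, ?_, ?_⟩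
    · intro Z hZ
      have h := u3 0 Z (hcl Z hZ)
      rw [UNH_It_zero] at h
      refine ⟨h.1, h.2.trans ?_⟩
      exact mul_le_mul_of_nonneg_right hC0C h.1.le
    · intro Z hZ
      have h := u1 0 M (Nat.zero_le _) Z (hcl Z hZ)
      have e : un f 0 Z = (1 / 2) * Real.log (pq Z) := by
        unfold un
        rw [UNH_It_zero, pow_zero, div_one]
      rw [e, pow_zero, div_one] at h
      exact h.trans hC0C
    · intro Z hZ Z' hZ' hZZ
      refine (uH M Z hZ Z' hZ' hZZ).trans ?_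
      exact mul_le_mul_of_nonneg_right hC0H (by positivity)
  · intro ι c γ hT ξ hξ
    exact (hbg ι c γ hT ξ hξ).trans hC0B
  · intro ι c γ hT n p hp
    exact UNH_cone hG.1 (hcone ι c γ hT p hp) n
  · intro ι c γ hT n p hp
    have hc := hcl _ (hcone ι c γ hT p hp)
    obtain ⟨h1, h2⟩ := u3 n _ hc
    refine ⟨h1, h2.trans (mul_le_mul_of_nonneg_right hC0C h1.le), (u4 n _ hc).trans hC0C, ?_⟩
    refine (hun ι c γ hT n p hp).trans ?_
    rw [hC0def]
    linarith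
  · intro ι c γ hT n N hnN p hp
    refine (u1 n N hnN _ (hcl _ (hcone ι c γ hT p hp))).trans ?_
    exact div_le_div_of_nonneg_right hC0C (by positivity)
  · intro ι c γ hT n p hp p' hp'
    have hpa : p ∈ P2U.TB 1 τ := ⟨hp.1.trans (by norm_num), hp.2⟩
    have hpa' : p' ∈ P2U.TB 1 τ := ⟨hp'.1.trans (by norm_num), hp'.2⟩
    have hlip : ‖γ p.1 - γ p'.1‖ ≤ 5 * B * ‖p.1 - p'.1‖ :=
      WCN_lip (by linarith) hT.hd (hbg ι c γ hT) hp.1 hp'.1
    have hsub := WCN_gp_sub (ι := ι) (c := c) hκ0 hκ1 (by positivity : (0 : ℝ) ≤ 5 * B) hlip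
    rw [← hAdef] at hsub
    have hn := norm_nonneg (p - p')
    obtain ⟨-, -, -, g4⟩ := WCN_gp (ι := ι) (γ := γ) hT.hc hκ0 hκ1 hpa.1
    have hAα : A ^ α ≤ A := by
      calc A ^ α ≤ A ^ (1 : ℝ) := Real.rpow_le_rpow_of_exponent_le hA hα1
        _ = A := Real.rpow_one A
    have hpa0 : 0 ≤ ‖p - p'‖ ^ α := by positivity
    rcases le_or_gt (‖gp ι c κ γ p - gp ι c κ γ p'‖) (1 / 2) with hs | hs
    · have h1 := uH n _ (hcone ι c γ hT p hpa) _ (hcone ι c γ hT p' hpa') (by linarith)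
      refine h1.trans ?_
      have h2 : ‖gp ι c κ γ p - gp ι c κ γ p'‖ / ‖gp ι c κ γ p‖ ≤ A * ‖p - p'‖ :=
        (div_le_self (norm_nonneg _) g4).trans hsub
      have h3 : (‖gp ι c κ γ p - gp ι c κ γ p'‖ / ‖gp ι c κ γ p‖) ^ α ≤ A * ‖p - p'‖ ^ α := by
        calc (‖gp ι c κ γ p - gp ι c κ γ p'‖ / ‖gp ι c κ γ p‖) ^ α ≤ (A * ‖p - p'‖) ^ α :=
              Real.rpow_le_rpow (by positivity) h2 hα0.le
          _ = A ^ α * ‖p - p'‖ ^ α := Real.mul_rpow (by linarith) hn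
          _ ≤ A * ‖p - p'‖ ^ α := mul_le_mul_of_nonneg_right hAα hpa0
      calc CH * (‖gp ι c κ γ p - gp ι c κ γ p'‖ / ‖gp ι c κ γ p‖) ^ α ≤ CH * (A * ‖p - p'‖ ^ α) :=
            mul_le_mul_of_nonneg_left h3 hCH.le
        _ = (CH * A) * ‖p - p'‖ ^ α := by ring
        _ ≤ C0 * ‖p - p'‖ ^ α := by
            refine mul_le_mul_of_nonneg_right ?_ hpa0
            rw [hC0def]
            linarith
    · have h1 := hun ι c γ hT n p hpa
      have h2 := hun ι c γ hT n p' hpa'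
      have h3 : |un f n (gp ι c κ γ p) - un f n (gp ι c κ γ p')| ≤ 12 * C := by
        rw [abs_le] at h1 h2 ⊢
        constructor <;> linarith
      have h4 : 1 ≤ 2 * A * ‖p - p'‖ := by linarith
      have h5 : 1 ≤ (2 * A * ‖p - p'‖) ^ α := Real.one_le_rpow h4 hα0.le
      have h6 : (2 * A * ‖p - p'‖) ^ α ≤ 2 * A * ‖p - p'‖ ^ α := by
        rw [Real.mul_rpow (by linarith) hn]
        refine mul_le_mul_of_nonneg_right ?_ hpa0
        calc (2 * A) ^ α ≤ (2 * A) ^ (1 : ℝ) := Real.rpow_le_rpow_of_exponent_le (by linarith) hα1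
          _ = 2 * A := Real.rpow_one _
      calc |un f n (gp ι c κ γ p) - un f n (gp ι c κ γ p')| ≤ 12 * C := h3
        _ ≤ 12 * C * (2 * A * ‖p - p'‖ ^ α) := by
            have h7 : 1 ≤ 2 * A * ‖p - p'‖ ^ α := h5.trans h6
            nlinarith
        _ = (24 * C * A) * ‖p - p'‖ ^ α := by ring
        _ ≤ C0 * ‖p - p'‖ ^ α := by
            refine mul_le_mul_of_nonneg_right ?_ hpa0
            rw [hC0def]
            linarith

end Pool.Agent.P2W
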